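import Pool.Agent.helper73.BS.Spec

/-!
# MP_a2a22c_al, row bs:JN (neat matrices)
-/

set_option autoImplicit false

namespace Pool.Agent.BS

open Matrix Module Pool.Agent.UG Pool.Agent.H48SL Pool.Agent.SHL

/-- `exp N = 1 + U * N` with `U` commuting with everything that commutes with `N` -/
theorem JN_exp {n : ℕ} {N : MQ n} (hN : IsNilpotent N) :
    ∃ U : MQ n, IsNilpotent.exp N = 1 + U * N ∧ ∀ s : MQ n, Commute s N → Commute s U := by
  obtain ⟨m, hm⟩ := hN
  have hm1 : N ^ (m + 1) = 0 := by rw [pow_succ, hm, zero_mul]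
  refine ⟨∑ i ∈ Finset.range m, (((i + 1).factorial : ℚ)⁻¹) • N ^ i, ?_, ?_⟩
  · rw [IsNilpotent.exp_eq_sum hm1, Finset.sum_range_succ', Finset.sum_mul, add_comm]
    congr 1
    · simp
    · apply Finset.sum_congr rfl
      intro i _
      rw [pow_succ, smul_mul_assoc]
  · intro s hs
    exact Commute.sum_right _ _ _ fun i _ => (hs.pow_right i).smul_right _

theorem JN_comm {n : ℕ} {s N : MQ n} (hN : IsNilpotent N) (h : Commute s N) :
    Commute s (IsNilpotent.exp N) := by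
  obtain ⟨U, hU, hc⟩ := JN_exp hN
  rw [hU]
  exact (Commute.one_right s).add_right ((hc s h).mul_right h)

/-- the eigenvalues of `s` are eigenvalues of `y` -/
theorem JN_eig {n : ℕ} {y s N : MQ n} (hJ : JD y s N) (l : KB) (w : Fin n → KB) (hw : w ≠ 0)
    (h : s.map (algebraMap ℚ KB) *ᵥ w = l • w) :
    ∃ w' : Fin n → KB, w' ≠ 0 ∧ y.map (algebraMap ℚ KB) *ᵥ w' = l • w' := by
  classical
  obtain ⟨hN, hc, _, hy⟩ := hJ
  let f : MQ n →+* Matrix (Fin n) (Fin n) KB := (algebraMap ℚ KB).mapMatrix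
  have hf : ∀ M : MQ n, M.map (algebraMap ℚ KB) = f M := fun M => rfl
  have hNn : IsNilpotent (f N) := hN.map f
  have hex : ∃ r : ℕ, (f N) ^ r *ᵥ w = 0 := by
    obtain ⟨r, hr⟩ := hNn
    exact ⟨r, by rw [hr, Matrix.zero_mulVec]⟩
  have hr := Nat.find_spec hex
  have hmin := fun r => @Nat.find_min _ _ hex r
  set r := Nat.find hex with hrdef
  have hr0 : r ≠ 0 := by
    intro h0
    rw [h0, pow_zero, Matrix.one_mulVec] at hr
    exact hw hr
  obtain ⟨q, hq⟩ := Nat.exists_eq_succ_of_ne_zero hr0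
  have hq' : ¬ (f N) ^ q *ᵥ w = 0 := hmin q (by omega)
  have hcf : Commute (f s) ((f N) ^ q) := (hc.map f).pow_right q
  refine ⟨(f N) ^ q *ᵥ w, hq', ?_⟩
  have h1 : f N *ᵥ ((f N) ^ q *ᵥ w) = 0 := by
    rw [mulVec_mulVec, ← pow_succ', ← Nat.succ_eq_add_one, ← hq]
    exact hr
  have h2 : f s *ᵥ ((f N) ^ q *ᵥ w) = l • ((f N) ^ q *ᵥ w) := by
    rw [mulVec_mulVec, hcf.eq, ← mulVec_mulVec, ← hf s, h, Matrix.mulVec_smul]
  obtain ⟨U, hU, _⟩ := JN_exp hN
  rw [hf, hy, hU, map_mul, map_add, map_mul, map_one, ← mulVec_mulVec, Matrix.add_mulVec,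
    Matrix.one_mulVec, ← mulVec_mulVec, h1, Matrix.mulVec_zero, add_zero]
  exact h2

theorem JN_sum (hXA : XA_stmt) {ι : Type} (Λ : Subgroup KBˣ) (t : Finset ι)
    (ψ : ι → ℕ → ℚ → KB) (h : ∀ i ∈ t, CF Λ (ψ i)) : CF Λ (fun k x => ∑ i ∈ t, ψ i k x) := by
  classical
  obtain ⟨h1, _, _, h4, _⟩ := hXA Λ
  induction t using Finset.induction_on with
  | empty =>
    simp only [Finset.sum_empty]
    exact h1 0
  | insert a s ha ih =>
    simp only [Finset.sum_insert ha]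
    exact h4 _ _ (h a (Finset.mem_insert_self a s))
      (ih fun i hi => h i (Finset.mem_insert_of_mem hi))

theorem JN_poly (Λ : Subgroup KBˣ) (p : Polynomial ℚ) :
    CF Λ (fun _ x => algebraMap ℚ KB (p.eval x)) := by
  refine ⟨{1}, fun _ => p.map (algebraMap ℚ KB), ?_, ?_⟩
  · intro z hz
    rw [Finset.mem_singleton.1 hz]
    exact Λ.one_mem
  · intro k x
    rw [Finset.sum_singleton, Units.val_one, one_pow, mul_one, Polynomial.eval_map_algebraMap,
      Polynomial.aeval_algebraMap_apply, Polynomial.coe_aeval_eq_eval]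

/-- polynomials of `s ^ k exp (x N)` -/
theorem JN_F (hXA : XA_stmt) (hXZ : XZ_stmt) (hEXJ : UG.EXJ_stmt) {n : ℕ} (s N : MQ n)
    (Λ : Subgroup KBˣ) (hs : IsUnit s.det) (hss : Module.End.IsSemisimple (Matrix.toLin' s))
    (hN : IsNilpotent N)
    (hΛ : ∀ (l : KB) (w : Fin n → KB), w ≠ 0 → s.map (algebraMap ℚ KB) *ᵥ w = l • w →
      ∃ z ∈ Λ, (z : KB) = l) (F : MvPolynomial (Fin n × Fin n) ℚ) :
    CF Λ (fun k x => algebraMap ℚ KB (MvPolynomial.eval
      (fun a : Fin n × Fin n => (s ^ k * IsNilpotent.exp (x • N)) a.1 a.2) F)) := by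
  obtain ⟨h1, _, _, h4, h5⟩ := hXA Λ
  induction F using MvPolynomial.induction_on with
  | C c =>
    simp only [MvPolynomial.eval_C]
    exact h1 _
  | add p q hp hq =>
    simp only [map_add]
    exact h4 _ _ hp hq
  | mul_X p a hp =>
    simp only [map_mul, MvPolynomial.eval_X]
    refine h5 _ _ hp ?_
    simp only [Matrix.mul_apply, map_sum, map_mul]
    refine JN_sum hXA Λ _ _ fun i _ => ?_
    refine h5 _ _ (hXZ n s Λ hs hss hΛ a.1 i).1 ?_
    obtain ⟨p', hp'⟩ := (hEXJ n N hN).2.2.2.2.2.2.1 i a.2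
    have : (fun (_ : ℕ) (x : ℚ) => algebraMap ℚ KB (IsNilpotent.exp (x • N) i a.2)) =
        fun _ x => algebraMap ℚ KB (p'.eval x) := by
      funext _ x
      rw [← hp' x]
    rw [this]
    exact JN_poly Λ p'

/-- vanishing on the multiples of `m` -/
theorem JN_van (hXI : XI_stmt) (Λ : Subgroup KBˣ)
    (htf : ∀ z ∈ Λ, ∀ m : ℕ, 0 < m → z ^ m = 1 → z = 1) (ψ : ℕ → ℚ → KB) (hψ : CF Λ ψ)
    (m : ℕ) (hm : 1 ≤ m) (h0 : ∀ j : ℕ, ψ (m * j) ((m * j : ℕ) : ℚ) = 0) :
    ∀ k x, ψ k x = 0 := by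
  classical
  obtain ⟨t, p, ht, hp⟩ := hψ
  set q : KBˣ → Polynomial KB := fun w => ∑ z ∈ t.filter (fun z => z ^ m = w),
    (p z).comp (Polynomial.C (m : KB) * Polynomial.X) with hq
  have h1 : ∀ k : ℕ, ∑ w ∈ t.image (fun z => z ^ m), (q w).eval (k : KB) * (w : KB) ^ k = 0 := by
    intro k
    rw [← h0 k, hp, ← Finset.sum_fiberwise_of_maps_to (t := t.image (fun z => z ^ m))
      (g := fun z => z ^ m) (fun i hi => Finset.mem_image_of_mem _ hi)]
    refine Finset.sum_congr rfl fun w _ => ?_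
    rw [hq, Polynomial.eval_finsetSum, Finset.sum_mul]
    refine Finset.sum_congr rfl fun z hz => ?_
    rw [← (Finset.mem_filter.1 hz).2, Polynomial.eval_comp, Polynomial.eval_mul,
      Polynomial.eval_C, Polynomial.eval_X, Units.val_pow_eq_pow_val, ← pow_mul, map_natCast,
      Nat.cast_mul]
  have h2 := hXI KB _ q h1
  have h3 : ∀ z ∈ t, p z = 0 := by
    intro z hz
    have h4 := h2 (z ^ m) (Finset.mem_image_of_mem _ hz)
    have h5 : t.filter (fun z' => z' ^ m = z ^ m) = {z} := by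
      ext z'
      rw [Finset.mem_filter, Finset.mem_singleton]
      constructor
      · rintro ⟨hz', he⟩
        have h6 : (z' * z⁻¹) ^ m = 1 := by
          rw [mul_pow, he, inv_pow, mul_inv_cancel]
        have h7 := htf (z' * z⁻¹) (Λ.mul_mem (ht z' hz') (Λ.inv_mem (ht z hz))) m hm h6
        exact mul_inv_eq_one.1 h7
      · rintro rfl
        exact ⟨hz, rfl⟩
    have h6 : (p z).comp (Polynomial.C (m : KB) * Polynomial.X) = 0 := by
      rw [hq] at h4
      simp only [h5, Finset.sum_singleton] at h4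
      exact h4
    have hm0 : (m : KB) ≠ 0 := Nat.cast_ne_zero.2 (by omega)
    have h7 : ((p z).comp (Polynomial.C (m : KB) * Polynomial.X)).comp
        (Polynomial.C (m : KB)⁻¹ * Polynomial.X) = p z := by
      rw [Polynomial.comp_assoc, Polynomial.mul_comp, Polynomial.C_comp, Polynomial.X_comp,
        ← mul_assoc, ← Polynomial.C_mul, mul_inv_cancel₀ hm0, Polynomial.C_1, one_mul,
        Polynomial.comp_X]
    rw [← h7, h6, Polynomial.zero_comp]
  intro k x
  rw [hp]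
  refine Finset.sum_eq_zero fun z hz => ?_
  rw [h3 z hz, Polynomial.eval_zero, zero_mul]

theorem JN (hXI : XI_stmt) (hXA : XA_stmt) (hXZ : XZ_stmt) (hJE : JE_stmt)
    (hEXJ : UG.EXJ_stmt) : JN_stmt := by
  intro n y hy hneat m hm k
  obtain ⟨s, N, hJ, _, _, _⟩ := hJE n y hy
  obtain ⟨Λ, htf, hΛ⟩ := hneat
  have hJ' := hJ
  obtain ⟨hN, hc, hss, hyd⟩ := hJ
  have hs : IsUnit s.det := by
    rw [hyd, Matrix.det_mul] at hy
    exact isUnit_of_mul_isUnit_left hy
  have hce : Commute s (IsNilpotent.exp N) := JN_comm hN hc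
  have hpow : ∀ j : ℕ, y ^ j = s ^ j * IsNilpotent.exp ((j : ℚ) • N) := by
    intro j
    rw [hyd, hce.mul_pow, (hEXJ n N hN).1 j]
  intro F hF
  have hCF := JN_F hXA hXZ hEXJ s N Λ hs hss hN (fun l w hw hlw => by
    obtain ⟨w', hw', h'⟩ := JN_eig hJ' l w hw hlw
    exact hΛ l w' hw' h') F
  have h0 := JN_van hXI Λ htf _ hCF m hm (fun j => by
    show algebraMap ℚ KB (MvPolynomial.eval
      (fun a : Fin n × Fin n => (s ^ (m * j) * IsNilpotent.exp (((m * j : ℕ) : ℚ) • N)) a.1 a.2)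
        F) = 0
    rw [← hpow, hF _ ⟨j, rfl⟩, map_zero]) k (k : ℚ)
  have h1 : algebraMap ℚ KB (MvPolynomial.eval
      (fun a : Fin n × Fin n => (s ^ k * IsNilpotent.exp ((k : ℚ) • N)) a.1 a.2) F) = 0 := h0
  rw [← hpow] at h1
  exact (map_eq_zero_iff _ (algebraMap ℚ KB).injective).1 h1

end Pool.Agent.BS
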