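import Pool.Agent.helper73.BS.Spec

/-!
# MP_a2a22c_al, row bs:RA (the unipotent part is additive modulo the unipotent elements)
-/

set_option autoImplicit false

namespace Pool.Agent.BS

open Matrix Module Pool.Agent.UG Pool.Agent.H48SL Pool.Agent.SHL

theorem RA_nil {n : ℕ} {P : Subgroup (SLZ n)} {𝔲 : Submodule ℚ (MQ n)} {k : ℕ}
    {W : ℕ → Submodule ℚ (VQ n)} (h : FS P 𝔲 k W) {X : MQ n}
    (hX : ∀ i, ∀ w ∈ W (i + 1), X *ᵥ w ∈ W i) : IsNilpotent X :=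
  fil_one_nil h.bot h.top ((mem_fil_one h.bot).2 hX)

theorem RA_exp1 {n : ℕ} {P : Subgroup (SLZ n)} {W : ℕ → Submodule ℚ (VQ n)} {X : MQ n}
    (h : Rad P W X) : IsNilpotent.exp X ∈ ZQ (mz P) := by
  have h1 := h.2 1
  rwa [one_smul] at h1

theorem RA_neg {n : ℕ} {P : Subgroup (SLZ n)} {W : ℕ → Submodule ℚ (VQ n)} {X : MQ n}
    (h : Rad P W X) : Rad P W (-X) := by
  refine ⟨fun i w hw => ?_, fun t => ?_⟩
  · rw [Matrix.neg_mulVec]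
    exact (W i).neg_mem (h.1 i w hw)
  · have h1 := h.2 (-t)
    rwa [neg_smul, ← smul_neg] at h1

theorem RA_comm {n : ℕ} {s N : MQ n} (hN : IsNilpotent N) (h : Commute s N) :
    Commute s (IsNilpotent.exp N) := by
  obtain ⟨m, hm⟩ := hN
  rw [IsNilpotent.exp_eq_sum hm]
  exact Commute.sum_right _ _ _ fun i _ => (h.pow_right i).smul_right _

theorem RA_one {n : ℕ} (P : Subgroup (SLZ n)) : (1 : MQ n) ∈ ZQ (mz P) :=
  subset_ZQ _ ⟨1, P.one_mem, qg_one.symm⟩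

theorem RA_pow {n : ℕ} {P : Subgroup (SLZ n)}
    (hmul : ∀ x ∈ ZQ (mz P), ∀ y ∈ ZQ (mz P), x * y ∈ ZQ (mz P)) {s : MQ n}
    (hs : s ∈ ZQ (mz P)) (k : ℕ) : s ^ k ∈ ZQ (mz P) := by
  induction k with
  | zero =>
    rw [pow_zero]
    exact RA_one P
  | succ k ih =>
    rw [pow_succ]
    exact hmul _ ih _ hs

/-- the induction: `e ^ (-k) (e s) ^ k s ^ (-k)` is in `E₀` -/
theorem RA_ind {n : ℕ} {P : Subgroup (SLZ n)} {E : Set (MQ n)} (h1E : (1 : MQ n) ∈ E)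
    (hEm : ∀ x ∈ E, ∀ y ∈ E, x * y ∈ E) (hEP : ∀ x ∈ E, x ∈ ZQ (mz P))
    (hmul : ∀ x ∈ ZQ (mz P), ∀ y ∈ ZQ (mz P), x * y ∈ ZQ (mz P))
    (hdet : ∀ x ∈ ZQ (mz P), x.det = 1)
    (hcom : ∀ x ∈ ZQ (mz P), ∀ y ∈ ZQ (mz P), x * y * x⁻¹ * y⁻¹ ∈ E)
    (e e' s : MQ n) (he' : e' ∈ ZQ (mz P)) (hs : s ∈ ZQ (mz P))
    (h1 : e * e' = 1) (h2 : e' * e = 1) (k : ℕ) : e' ^ k * (e * s) ^ k * s⁻¹ ^ k ∈ E := by
  have hsu : IsUnit s.det := by rw [hdet s hs]; exact isUnit_one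
  have hs1 : s * s⁻¹ = 1 := Matrix.mul_nonsing_inv s hsu
  have hs2 : s⁻¹ * s = 1 := Matrix.nonsing_inv_mul s hsu
  have hsc : Commute s s⁻¹ := by
    show s * s⁻¹ = s⁻¹ * s
    rw [hs1, hs2]
  induction k with
  | zero =>
    rw [pow_zero, pow_zero, pow_zero, one_mul, one_mul]
    exact h1E
  | succ k ih =>
    set a : MQ n := e' ^ k * (e * s) ^ k * s⁻¹ ^ k with ha
    have haP := hEP a ih
    have hau : IsUnit a.det := by rw [hdet a haP]; exact isUnit_one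
    have ha2 : a⁻¹ * a = 1 := Matrix.nonsing_inv_mul a hau
    have hsk1 : s ^ k * s⁻¹ ^ k = 1 := by rw [← hsc.mul_pow, hs1, one_pow]
    have hsk2 : s⁻¹ ^ k * s ^ k = 1 := by rw [← hsc.symm.mul_pow, hs2, one_pow]
    have hinv1 : e'⁻¹ = e := Matrix.inv_eq_right_inv h2
    have hinv2 : (s ^ k)⁻¹ = s⁻¹ ^ k := Matrix.inv_eq_right_inv hsk1
    have hC1 := hcom e' he' a haP
    have hC2 := hcom e' he' (s ^ k) (RA_pow hmul hs k)
    rw [hinv1] at hC1 hC2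
    rw [hinv2] at hC2
    have hb : e' ^ k * (e * s) ^ k = a * s ^ k := by
      rw [ha, mul_assoc (e' ^ k * (e * s) ^ k), hsk2, mul_one]
    have key : e' ^ (k + 1) * (e * s) ^ (k + 1) * s⁻¹ ^ (k + 1) =
        (e' * a * e * a⁻¹ * a) * (e' * s ^ k * e * s⁻¹ ^ k) := by
      calc e' ^ (k + 1) * (e * s) ^ (k + 1) * s⁻¹ ^ (k + 1)
          = e' * (e' ^ k * (e * s) ^ k) * e * (s * s⁻¹) * s⁻¹ ^ k := by
            rw [pow_succ' e', pow_succ (e * s), pow_succ' s⁻¹]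
            simp only [mul_assoc]
        _ = e' * (a * s ^ k) * e * s⁻¹ ^ k := by rw [hb, hs1, mul_one]
        _ = e' * a * (e * e') * s ^ k * e * s⁻¹ ^ k := by
            rw [h1, mul_one]
            simp only [mul_assoc]
        _ = (e' * a * e * (a⁻¹ * a)) * (e' * s ^ k * e * s⁻¹ ^ k) := by
            rw [ha2, mul_one]
            simp only [mul_assoc]
        _ = (e' * a * e * a⁻¹ * a) * (e' * s ^ k * e * s⁻¹ ^ k) := by
            simp only [mul_assoc]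
    rw [key]
    exact hEm _ (hEm _ hC1 _ ih) _ hC2

theorem RA (hZG : ZG_stmt) (hZC : ZC_stmt) (hZE : ZE_stmt) (hRL : RL_stmt) (hRU : RU_stmt)
    (hRS : RS_stmt) (hJS : JS_stmt) (hEI : EI_stmt) (hEXJ : UG.EXJ_stmt) : RA_stmt := by
  intro n P 𝔲 k W hFS X hX y hy s N s' N' hJ hJ'
  obtain ⟨hmul, hinv⟩ := hZG n P
  obtain ⟨hRu, hRj⟩ := hRU n P 𝔲 k W hFS
  have hy' : IsNilpotent.exp X * y ∈ ZQ (mz P) := hmul _ (RA_exp1 hX) _ hy
  obtain ⟨hNR, hsP⟩ := hRj y hy s N hJ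
  obtain ⟨hNR', hsP'⟩ := hRj _ hy' s' N' hJ'
  obtain ⟨hN, hc, hss, hyd⟩ := hJ
  obtain ⟨hN', hc', hss', hyd'⟩ := hJ'
  obtain ⟨Z₁, hZ₁, hZ₁e, hZ₁u⟩ := hRS n P 𝔲 k W hFS (-N') X (RA_neg hNR') hX
  obtain ⟨Z, hZ, hZe, hZu⟩ := hRS n P 𝔲 k W hFS Z₁ N hZ₁ hNR
  have hZn : IsNilpotent Z := RA_nil hFS hZ.1
  -- `s' = exp Z * s`
  have hs' : s' = IsNilpotent.exp Z * s := by
    have h1 : IsNilpotent.exp (-N') * (IsNilpotent.exp N' * s') = s' := by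
      have h2 := IsNilpotent.exp_mul_exp_neg_self hN'.neg
      rw [neg_neg] at h2
      rw [← mul_assoc, h2, one_mul]
    rw [← h1, ← (RA_comm hN' hc').eq, ← hyd', hyd, (RA_comm hN hc).eq, ← hZe, ← hZ₁e]
    simp only [mul_assoc]
  -- the group `E₀`
  set E : Set (MQ n) := Ex 𝔲 with hE
  have hEcl : ZQ E ⊆ E := hZE n 𝔲 k W hFS.bot hFS.top hFS.down
  have h1E : (1 : MQ n) ∈ E := ⟨0, 𝔲.zero_mem, by rw [IsNilpotent.exp_zero]⟩
  have hEm : ∀ x ∈ E, ∀ y ∈ E, x * y ∈ E := by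
    rintro x ⟨A, hA, rfl⟩ y ⟨B, hB, rfl⟩
    obtain ⟨C, hC, hCe⟩ := hFS.grp A hA B hB
    exact ⟨C, hC, hCe⟩
  have hEP : ∀ x ∈ E, x ∈ ZQ (mz P) := by
    rintro x ⟨A, hA, rfl⟩
    exact RA_exp1 (hRu A hA)
  have hcom := hZC n P E hEcl (fun g hg h hh => by
    obtain ⟨A, hA, hAe⟩ := hFS.com g hg h hh
    exact ⟨A, hA, hAe⟩)
  have he1 : IsNilpotent.exp Z * IsNilpotent.exp (-Z) = 1 := IsNilpotent.exp_mul_exp_neg_self hZn
  have he2 : IsNilpotent.exp (-Z) * IsNilpotent.exp Z = 1 := by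
    have h2 := IsNilpotent.exp_mul_exp_neg_self hZn.neg
    rwa [neg_neg] at h2
  have hfin := hJS n E s s' Z hEcl (by rw [(hinv s hsP).1]; exact isUnit_one) hss hss' hZn hs'
    (fun j => by
      have h3 := RA_ind h1E hEm hEP hmul (fun x hx => (hinv x hx).1) hcom (IsNilpotent.exp Z)
        (IsNilpotent.exp (-Z)) s (RA_exp1 (RA_neg hZ)) hsP he1 he2 j
      rw [(hEXJ n (-Z) hZn.neg).1 j, smul_neg, ← neg_smul, ← hs'] at h3
      exact h3) 1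
  rw [one_smul] at hfin
  obtain ⟨A, hA, hAe⟩ := hfin
  have hZA : Z = A := hEI n Z A hZn (RA_nil hFS (hFS.down A hA)) hAe
  have hZmem : Z ∈ 𝔲 := by rw [hZA]; exact hA
  have hsum : N' - X - N = (Z₁ - -N' - X) + (Z - Z₁ - N) - Z := by abel
  rw [hsum]
  exact 𝔲.sub_mem (𝔲.add_mem hZ₁u hZu) hZmem

end Pool.Agent.BS
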